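import Pool.Agent.Helper67.DF.Stmts
import Pool.Agent.Helper67.BT.Basic2

/-!
# BLL: the Brascamp-Lieb inequality on the whole space
-/

set_option autoImplicit false

open MeasureTheory

namespace Pool.Agent.Helper67.DF

open Pool.Agent.Helper67.BT (E PG Sp)

namespace BLL53

variable {n k : ℕ}

theorem lim_ball {G : E k → ℝ} (hG : Integrable G) :
    Filter.Tendsto (fun m : ℕ => ∫ x in Metric.closedBall (0 : E k) (m : ℝ), G x) Filter.atTop
      (nhds (∫ x, G x)) := by
  have h := tendsto_setIntegral_of_monotone (s := fun m : ℕ => Metric.closedBall (0 : E k) (m : ℝ))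
    (f := G) (μ := volume) (fun m => Metric.isClosed_closedBall.measurableSet)
    (fun i j hij => Metric.closedBall_subset_closedBall (by exact_mod_cast hij)) hG.integrableOn
  rwa [Metric.iUnion_closedBall_nat, setIntegral_univ] at h

end BLL53

open BLL53 in
theorem st_BLL (hBLB : ST_BLB) (hIG : ST_IG) : ST_BLL := by
  intro n k a c K α U ψ w f b ha h hf hb hTH
  obtain ⟨δ, _, hIG'⟩ := hIG n k a ha c h.c0
  obtain ⟨_, _, _, hPG, hint, _⟩ := hIG' K α U ψ w h
  have h1 : PG fun x : E k => f x ^ 2 := BT.PG_pow hf 2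
  have h2 : PG fun x : E k => ∑ l, b l x ^ 2 / w l (inner ℝ (a l) x) := by
    refine BT.PG_sum _ fun l _ => ?_
    simp only [div_eq_mul_inv]
    exact BT.PG_mul (BT.PG_pow (hb l) 2) (hPG l).2.2
  have l0 := lim_ball (hint _ (BT.PG_const (k := k) 1))
  have l1 := lim_ball (hint _ hf)
  have l2 := lim_ball (hint _ h1)
  have l3 := lim_ball (hint _ h2)
  refine le_of_tendsto_of_tendsto' ((l0.mul l2).sub (l1.pow 2)) (l0.mul l3) fun m => ?_
  obtain ⟨C, hC⟩ := hTH m
  have := hBLB n k a c K α m C U ψ w f b ha h hf.1 (fun l => (hb l).1) hC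
  simp only [one_mul]
  exact this

end Pool.Agent.Helper67.DF
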