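import Pool.Agent.Helper67.DF.Stmts

/-!
# PSN: isotropic position
-/

set_option autoImplicit false

namespace Pool.Agent.Helper67.DF

open Pool.Agent.Helper67.BT (E PG Sp)

namespace PSN53

variable {n k : ℕ}

/-- the coordinates `sqrt (s_l) <a_l, x>` -/
noncomputable def L (a : Fin n → E k) (s : Fin n → ℝ) : E k →ₗ[ℝ] EuclideanSpace ℝ (Fin n) :=
  { toFun := fun x => WithLp.toLp 2 fun l => √(s l) * inner ℝ (a l) x
    map_add' := fun x y => by
      ext l
      simp [inner_add_right, mul_add]
    map_smul' := fun c x => by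
      ext l
      simp [inner_smul_right, mul_left_comm] }

theorem L_apply (a : Fin n → E k) (s : Fin n → ℝ) (x : E k) (l : Fin n) :
    L a s x l = √(s l) * inner ℝ (a l) x := rfl

theorem L_inner (a : Fin n → E k) (s : Fin n → ℝ) (hs : ∀ l, 0 < s l) (x y : E k) :
    inner ℝ (L a s x) (L a s y) = ∑ l, s l * inner ℝ (a l) x * inner ℝ (a l) y := by
  rw [PiLp.inner_apply]
  refine Finset.sum_congr rfl fun l _ => ?_
  rw [L_apply, L_apply]
  change (√(s l) * inner ℝ (a l) y) * (√(s l) * inner ℝ (a l) x) = _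
  have := Real.mul_self_sqrt (hs l).le
  linear_combination (inner ℝ (a l) x * inner ℝ (a l) y) * this

theorem L_inj (a : Fin n → E k) (s : Fin n → ℝ) (ha : Sp a) (hs : ∀ l, 0 < s l) :
    Function.Injective (L a s) := by
  rw [← LinearMap.ker_eq_bot, LinearMap.ker_eq_bot']
  intro x hx
  refine ha x fun l => ?_
  have h1 : L a s x l = 0 := by rw [hx]; rfl
  rw [L_apply] at h1
  exact (mul_eq_zero.mp h1).resolve_left (Real.sqrt_pos.mpr (hs l)).ne'

end PSN53

open PSN53 in
theorem st_PSN : ST_PSN := by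
  intro n k a s ha hs
  have hL := L_inj a s ha hs
  have hfr : Module.finrank ℝ (LinearMap.range (L a s)) = k := by
    rw [LinearMap.finrank_range_of_inj hL, finrank_euclideanSpace, Fintype.card_fin]
  let b : OrthonormalBasis (Fin k) ℝ (LinearMap.range (L a s)) :=
    (stdOrthonormalBasis ℝ (LinearMap.range (L a s))).reindex (finCongr hfr)
  let T : E k ≃ₗ[ℝ] E k := b.repr.symm.toLinearEquiv.trans (LinearEquiv.ofInjective (L a s) hL).symm
  have hT : ∀ x, L a s (T x) = (b.repr.symm x : EuclideanSpace ℝ (Fin n)) := by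
    intro x
    have h1 : LinearEquiv.ofInjective (L a s) hL (T x) = b.repr.symm x :=
      (LinearEquiv.ofInjective (L a s) hL).apply_symm_apply _
    rw [← h1]
    rfl
  have hadj : ∀ l x, inner ℝ (LinearMap.adjoint (T : E k →ₗ[ℝ] E k) (a l)) x =
      inner ℝ (a l) (T x) := by
    intro l x
    rw [LinearMap.adjoint_inner_left]
    rfl
  refine ⟨T, fun l => LinearMap.adjoint (T : E k →ₗ[ℝ] E k) (a l), hadj, fun y hy => ?_, ?_⟩
  · have h1 : T y = 0 := ha _ fun i => by rw [← hadj]; exact hy i
    exact (LinearEquiv.map_eq_zero_iff T).mp h1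
  · intro x y
    simp only [hadj]
    rw [← L_inner a s hs, hT, hT, ← Submodule.coe_inner, LinearIsometryEquiv.inner_map_map]

end Pool.Agent.Helper67.DF
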