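import Pool.Agent.Helper67.DF.Stmts
import Pool.Agent.Helper67.BT.Basic2
import Pool.Agent.Helper53.DF.PSN

/-!
# IG: growth and integrability
-/

set_option autoImplicit false

open MeasureTheory

namespace Pool.Agent.Helper67.DF

open Pool.Agent.Helper67.BT (E PG Sp)

namespace IG53

variable {n k : ℕ}

theorem coercive (a : Fin n → E k) (ha : Sp a) :
    ∃ lam : ℝ, 0 < lam ∧ ∀ x, lam * ‖x‖ ^ 2 ≤ ∑ l, (inner ℝ (a l) x) ^ 2 := by
  have hL := PSN53.L_inj a (fun _ => 1) ha (fun _ => one_pos)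
  obtain ⟨K, hK, h⟩ := LinearMap.exists_antilipschitzWith (PSN53.L a (fun _ => 1))
    (LinearMap.ker_eq_bot.mpr hL)
  have hK' : (0 : ℝ) < K := by exact_mod_cast hK
  refine ⟨((K : ℝ) ^ 2)⁻¹, by positivity, fun x => ?_⟩
  have h1 : ‖x‖ ≤ K * ‖PSN53.L a (fun _ => 1) x‖ := by
    have := h.le_mul_dist x 0
    rwa [dist_zero_right, map_zero, dist_zero_right] at this
  have h2 : ‖PSN53.L a (fun _ => 1) x‖ ^ 2 = ∑ l, (inner ℝ (a l) x) ^ 2 := by
    rw [← real_inner_self_eq_norm_sq, PSN53.L_inner a _ (fun _ => one_pos)]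
    exact Finset.sum_congr rfl fun l _ => by ring
  rw [← h2, inv_mul_le_iff₀ (by positivity), ← mul_pow]
  exact pow_le_pow_left₀ (norm_nonneg _) h1 2

theorem PG_of_le {F G : E k → ℝ} (hF : Continuous F) (hG : PG G) (h : ∀ x, |F x| ≤ G x) :
    PG F := by
  obtain ⟨_, C, N, hC, h2⟩ := hG
  exact ⟨hF, C, N, hC, fun x => (h x).trans ((le_abs_self _).trans (h2 x))⟩

theorem integrable_of {a : Fin n → E k} {U : Fin n → ℝ → ℝ} {δ V0 : ℝ} (hδ : 0 < δ)
    (hV : ∀ x, V0 + δ * ‖x‖ ^ 2 ≤ VV a U x) (hc : Continuous (VV a U)) {F : E k → ℝ} (hF : PG F) :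
    Integrable fun x => F x * Real.exp (-(VV a U x)) := by
  obtain ⟨hFc, C, N, hC, h⟩ := hF
  refine Integrable.mono' ((BT.pow_gauss_int (k := k) N hδ).const_mul (C * Real.exp (-V0))) ?_
    (Filter.Eventually.of_forall fun x => ?_)
  · exact Continuous.aestronglyMeasurable (by fun_prop)
  · rw [norm_mul, Real.norm_eq_abs, Real.norm_of_nonneg (Real.exp_pos _).le]
    calc |F x| * Real.exp (-(VV a U x)) ≤ (C * (1 + ‖x‖) ^ N) *
          (Real.exp (-V0) * Real.exp (-δ * ‖x‖ ^ 2)) := by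
          refine mul_le_mul (h x) ?_ (Real.exp_pos _).le (by positivity)
          rw [← Real.exp_add]
          refine Real.exp_le_exp.mpr ?_
          have := hV x
          linarith
      _ = _ := by ring

end IG53

open IG53 in
theorem st_IG (hPB : ST_PB) : ST_IG := by
  intro n k a ha c hc
  obtain ⟨lam, hlam, hco⟩ := coercive a ha
  refine ⟨c * lam / 2, by positivity, fun K α U ψ w h => ?_⟩
  have hV : ∀ x, VV a U 0 + c * lam / 2 * ‖x‖ ^ 2 ≤ VV a U x := by
    intro x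
    unfold VV
    have h1 : ∀ l, U l (inner ℝ (a l) (0 : E k)) + c / 2 * (inner ℝ (a l) x) ^ 2 ≤
        U l (inner ℝ (a l) x) := by
      intro l
      rw [inner_zero_right]
      exact (hPB n c K α U ψ w h l).2.2.2.2.2.1 _
    have h2 := Finset.sum_le_sum fun l (_ : l ∈ Finset.univ) => h1 l
    rw [Finset.sum_add_distrib, ← Finset.mul_sum] at h2
    have h3 := mul_le_mul_of_nonneg_left (hco x) (by positivity : 0 ≤ c / 2)
    linarith
  have hcont : Continuous (VV a U) := by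
    unfold VV
    refine continuous_finsetSum _ fun l _ => ?_
    exact (hPB n c K α U ψ w h l).1.comp (by fun_prop)
  have hint : ∀ F : E k → ℝ, PG F → Integrable fun x => F x * Real.exp (-(VV a U x)) :=
    fun F hF => integrable_of (by positivity) hV hcont hF
  refine ⟨hV, hcont, fun x => ?_, fun l => ⟨?_, ?_, ?_⟩, hint, ?_⟩
  · unfold VV
    refine Finset.sum_congr rfl fun l _ => ?_
    rw [inner_neg_right, h.ev]
  · obtain ⟨_, h2, _, _, _, _, h7, _⟩ := hPB n c K α U ψ w h l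
    refine PG_of_le (G := fun x => |w l 0| * |inner ℝ (a l) x| +
      K * |inner ℝ (a l) x| ^ (1 + α)) (h2.comp (by fun_prop))
      (BT.PG_add (BT.PG_const_mul _ (BT.PG_abs (BT.PG_inner _)))
        (BT.PG_const_mul _ (BT.PG_rpow (BT.PG_inner _) (by linarith [h.a0])))) fun x => ?_
    have h3 := h7 (inner ℝ (a l) x)
    have h4 : |w l 0 * inner ℝ (a l) x| = |w l 0| * |inner ℝ (a l) x| := abs_mul _ _
    have h5 := abs_sub_abs_le_abs_sub (ψ l (inner ℝ (a l) x)) (w l 0 * inner ℝ (a l) x)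
    linarith
  · obtain ⟨_, _, h2, _, _, _, _, h7, _⟩ := hPB n c K α U ψ w h l
    refine PG_of_le (G := fun x => |w l 0| + K * |inner ℝ (a l) x| ^ α) (h2.comp (by fun_prop))
      (BT.PG_add (BT.PG_const _) (BT.PG_const_mul _ (BT.PG_rpow (BT.PG_inner _) h.a0.le)))
      fun x => ?_
    have h3 := h7 (inner ℝ (a l) x)
    have h5 := abs_sub_abs_le_abs_sub (w l (inner ℝ (a l) x)) (w l 0)
    linarith
  · obtain ⟨_, _, h2, _⟩ := hPB n c K α U ψ w h l
    have hpos : ∀ t, 0 < w l t := fun t => lt_of_lt_of_le hc (h.lo l t)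
    refine PG_of_le (G := fun _ => c⁻¹) ?_ (BT.PG_const _) fun x => ?_
    · exact (h2.comp (by fun_prop)).inv₀ fun x => (hpos _).ne'
    · rw [abs_of_pos (inv_pos.mpr (hpos _))]
      exact inv_anti₀ hc (h.lo l _)
  · unfold J
    have h1 := hint (fun _ => 1) (BT.PG_const _)
    simp only [one_mul] at h1 ⊢
    exact integral_exp_pos h1

end Pool.Agent.Helper67.DF
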