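import Pool.Agent.Helper67.DF.Stmts

/-!
# PB: pointwise facts for one-variable potentials
-/

set_option autoImplicit false

namespace Pool.Agent.Helper67.DF

open Pool.Agent.Helper67.BT (E PG Sp)

namespace PB53

theorem mvt {f f' : ℝ → ℝ} (hf : ∀ x, HasDerivAt f (f' x) x) (t h : ℝ) :
    ∃ θ : ℝ, 0 ≤ θ ∧ θ ≤ 1 ∧ f (t + h) - f t = f' (t + θ * h) * h := by
  have hg : ∀ s : ℝ, HasDerivAt (fun s : ℝ => f (t + s * h)) (f' (t + s * h) * h) s := by
    intro s
    have h1 : HasDerivAt (fun s : ℝ => t + s * h) h s := by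
      simpa using ((hasDerivAt_id s).mul_const h).const_add t
    exact (hf (t + s * h)).comp s h1
  obtain ⟨θ, hθ, h2⟩ := exists_hasDerivAt_eq_slope (fun s : ℝ => f (t + s * h))
    (fun s => f' (t + s * h) * h) zero_lt_one
    (fun x _ => (hg x).continuousAt.continuousWithinAt) (fun x _ => hg x)
  refine ⟨θ, hθ.1.le, hθ.2.le, ?_⟩
  simpa using h2.symm

/-- second differences -/
theorem second {U ψ w : ℝ → ℝ} (hU : ∀ x, HasDerivAt U (ψ x) x) (hψ : ∀ x, HasDerivAt ψ (w x) x)
    (t h m : ℝ) (hm : ∀ η, |η - t| ≤ |h| → m ≤ w η) :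
    m * h ^ 2 ≤ U (t + h) + U (t - h) - 2 * U t := by
  have hg : ∀ s : ℝ, HasDerivAt (fun s : ℝ => U (t + s * h) + U (t - s * h) - m * h ^ 2 * s ^ 2)
      (ψ (t + s * h) * h - ψ (t - s * h) * h - m * h ^ 2 * (2 * s)) s := by
    intro s
    have h1 : HasDerivAt (fun s : ℝ => t + s * h) h s := by
      simpa using ((hasDerivAt_id s).mul_const h).const_add t
    have h2 : HasDerivAt (fun s : ℝ => t - s * h) (-h) s := by
      simpa using ((hasDerivAt_id s).mul_const h).const_sub t
    have h3 : HasDerivAt (fun s : ℝ => s ^ 2) (2 * s) s := by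
      simpa using hasDerivAt_pow 2 s
    have h4 := (((hU (t + s * h)).comp s h1).add ((hU (t - s * h)).comp s h2)).sub
      (h3.const_mul (m * h ^ 2))
    refine h4.congr_deriv ?_
    ring
  obtain ⟨θ, h0, h1, h2⟩ := mvt hg 0 1
  obtain ⟨σ, s0, s1, s2⟩ := mvt hψ (t - θ * h) (2 * θ * h)
  have e1 : t - θ * h + 2 * θ * h = t + θ * h := by ring
  rw [e1] at s2
  simp only [zero_add, one_mul, mul_one, zero_mul, add_zero, sub_zero, one_pow] at h2
  have h3 := hm (t - θ * h + σ * (2 * θ * h)) (by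
    rw [show t - θ * h + σ * (2 * θ * h) - t = (θ * (2 * σ - 1)) * h by ring, abs_mul]
    have h4 : |θ * (2 * σ - 1)| ≤ 1 := by
      rw [abs_mul, abs_of_nonneg h0]
      have : |2 * σ - 1| ≤ 1 := abs_le.mpr ⟨by linarith, by linarith⟩
      calc θ * |2 * σ - 1| ≤ 1 * 1 := mul_le_mul h1 this (abs_nonneg _) zero_le_one
        _ = 1 := one_mul 1
    calc _ ≤ 1 * |h| := mul_le_mul_of_nonneg_right h4 (abs_nonneg h)
      _ = |h| := one_mul _)
  have h5 : 0 ≤ 2 * θ * h ^ 2 * (w (t - θ * h + σ * (2 * θ * h)) - m) :=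
    mul_nonneg (by positivity) (by linarith)
  have h7 : U (t + h) + U (t - h) - 2 * U t - m * h ^ 2 =
      2 * θ * h ^ 2 * (w (t - θ * h + σ * (2 * θ * h)) - m) := by
    linear_combination h2 + h * s2
  linarith

end PB53

open PB53 in
theorem st_PB : ST_PB := by
  intro n c K α U ψ w h l
  have hw0 : ∀ s t, |w l s - w l t| ≤ K * |s - t| ^ α := h.ho l
  have hψo : ∀ t, ψ l (-t) = -ψ l t := by
    intro t
    have h1 : HasDerivAt (fun s : ℝ => U l (-s)) (ψ l (-t) * (-1)) t :=
      (h.dU l (-t)).comp t (hasDerivAt_neg t)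
    have h2 : (fun s : ℝ => U l (-s)) = U l := funext fun s => h.ev l s
    rw [h2] at h1
    have := h1.unique (h.dU l t)
    linarith
  have hwe : ∀ t, w l (-t) = w l t := by
    intro t
    have h1 : HasDerivAt (fun s : ℝ => ψ l (-s)) (w l (-t) * (-1)) t :=
      (h.dp l (-t)).comp t (hasDerivAt_neg t)
    have h2 : (fun s : ℝ => ψ l (-s)) = fun s => -ψ l s := funext fun s => hψo s
    rw [h2] at h1
    have := h1.unique (h.dp l t).neg
    linarith
  have hψ0 : ψ l 0 = 0 := by
    have := hψo 0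
    rw [neg_zero] at this
    linarith
  have habs : ∀ x : ℝ, |x| ^ α * |x| = |x| ^ (1 + α) := by
    intro x
    rcases eq_or_lt_of_le (abs_nonneg x) with h0 | h0
    · rw [← h0, mul_zero, Real.zero_rpow (by linarith [h.a0])]
    · rw [add_comm, Real.rpow_add h0, Real.rpow_one]
  have habs2 : ∀ x : ℝ, |x| ^ α * x ^ 2 = |x| ^ (2 + α) := by
    intro x
    rw [← sq_abs]
    rcases eq_or_lt_of_le (abs_nonneg x) with h0 | h0
    · rw [← h0, Real.zero_rpow (by linarith [h.a0] : (2 + α) ≠ 0)]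
      norm_num
    · rw [add_comm, Real.rpow_add h0]
      norm_num
  have h9 : ∀ t x, |ψ l (t + x) - ψ l t - w l t * x| ≤ K * |x| ^ (1 + α) := by
    intro t x
    obtain ⟨θ, h0, h1, h2⟩ := mvt (h.dp l) t x
    rw [h2, ← sub_mul, abs_mul, ← habs, ← mul_assoc]
    refine mul_le_mul_of_nonneg_right ((hw0 _ _).trans ?_) (abs_nonneg x)
    refine mul_le_mul_of_nonneg_left ?_ h.K0
    refine Real.rpow_le_rpow (abs_nonneg _) ?_ h.a0.le
    rw [show t + θ * x - t = θ * x by ring, abs_mul, abs_of_nonneg h0]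
    calc _ ≤ 1 * |x| := mul_le_mul_of_nonneg_right h1 (abs_nonneg x)
      _ = |x| := one_mul _
  have h10 : ∀ t x, c * x ^ 2 ≤ U l (t + x) + U l (t - x) - 2 * U l t := fun t x =>
    second (h.dU l) (h.dp l) t x c fun η _ => h.lo l η
  refine ⟨?_, ?_, ?_, hψo, hwe, ?_, ?_, ?_, h9, h10, ?_⟩
  · exact continuous_iff_continuousAt.mpr fun x => (h.dU l x).continuousAt
  · exact continuous_iff_continuousAt.mpr fun x => (h.dp l x).continuousAt
  · rw [continuous_iff_continuousAt]
    intro x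
    rw [ContinuousAt, tendsto_iff_dist_tendsto_zero]
    refine squeeze_zero (fun s => dist_nonneg) (g := fun s => K * |s - x| ^ α)
      (fun s => by rw [Real.dist_eq]; exact hw0 s x) ?_
    have h1 : Filter.Tendsto (fun s : ℝ => K * |s - x| ^ α) (nhds x) (nhds (K * |x - x| ^ α)) := by
      refine Filter.Tendsto.const_mul K ?_
      refine Filter.Tendsto.rpow_const ?_ (Or.inr h.a0.le)
      exact (Continuous.tendsto (by fun_prop) x)
    rw [sub_self, abs_zero, Real.zero_rpow h.a0.ne', mul_zero] at h1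
    exact h1
  · intro t
    have h1 := h10 0 t
    rw [zero_add, zero_sub, h.ev] at h1
    linarith
  · intro t
    have h1 := h9 0 t
    rwa [zero_add, hψ0, sub_zero] at h1
  · intro t
    have h1 := hw0 t 0
    rwa [sub_zero] at h1
  · intro t x
    have h1 := second (h.dU l) (h.dp l) t x (w l t - K * |x| ^ α) (by
      intro η hη
      have h2 := hw0 η t
      have h3 : K * |η - t| ^ α ≤ K * |x| ^ α :=
        mul_le_mul_of_nonneg_left (Real.rpow_le_rpow (abs_nonneg _) hη h.a0.le) h.K0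
      have h4 := neg_abs_le (w l η - w l t)
      linarith)
    rw [← habs2]
    linarith [h1]

end Pool.Agent.Helper67.DF
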